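import Pool.Agent.U797.NL.Spec2

set_option autoImplicit false

/-!
# Project NL, package LOC: the weighted form of the random colouring of the cells
-/

namespace Pool.Agent.U978.NL

open Finset
open scoped Classical
open Pool.Agent.U797.NL

/-- one dyadic scale -/
lemma scale (hC : S_CELLS) (V T : Type) [Fintype T] (X : Finset V)
    (S R : V → Finset T) (p : T → ℝ) (τ b : ℝ) (d K m : ℕ) (hp : ∀ c, 0 < p c) (hτ : 1 ≤ τ)
    (hd : ∀ v ∈ X, Disjoint (S v) (R v))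
    (hR : ∀ v ∈ X, ∑ c ∈ R v, p c ≤ τ * ∑ c ∈ S v, p c) (hd1 : 1 ≤ d)
    (hU : ∀ v ∈ X, ∃ U : Finset V, U.card ≤ d ∧ ∀ u ∈ X, ∀ c, (c ∈ S v ∨ c ∈ R v) →
      (c ∈ S u ∨ c ∈ R u) → u ∈ U) (hK : 4 * d ≤ 2 ^ K) (hm : 32 * τ ≤ m)
    (hb : 0 < b) (hw1 : ∀ v ∈ X, b ≤ ∑ c ∈ S v, p c) (hw2 : ∀ v ∈ X, ∑ c ∈ S v, p c ≤ 2 * b) :
    ∃ f : V → ℕ, ∀ v ∈ X, f v < K * m ∧ ∃ c ∈ S v, ∀ u ∈ X, f v = f u → c ∉ R u := by
  obtain ⟨s, hs⟩ : ∃ s : ℕ, s = Fintype.card T + 1 := ⟨_, rfl⟩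
  have hs1 : 1 ≤ s := by omega
  have hs0 : (0 : ℝ) < s := by exact_mod_cast hs1
  obtain ⟨η, hη⟩ : ∃ η : ℝ, η = b / (2 * s) := ⟨_, rfl⟩
  have hη0 : 0 < η := by rw [hη]; positivity
  have hbη : b = 2 * s * η := by rw [hη]; field_simp
  obtain ⟨n, hn⟩ : ∃ n : T → ℕ, n = fun c => ⌊p c / η⌋₊ := ⟨_, rfl⟩
  have hn1 : ∀ c, (n c : ℝ) * η ≤ p c := by
    intro c
    rw [← le_div_iff₀ hη0, hn]
    exact Nat.floor_le (div_nonneg (hp c).le hη0.le)
  have hn2 : ∀ c, p c ≤ (n c + 1) * η := by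
    intro c
    rw [← div_le_iff₀ hη0, hn]
    exact (Nat.lt_floor_add_one _).le
  have cS : ∀ v ∈ X, s ≤ ((S v).sigma (fun c => (univ : Finset (Fin (n c))))).card := by
    intro v hv
    rw [Finset.card_sigma]
    simp only [Finset.card_univ, Fintype.card_fin]
    have h1 : ∑ c ∈ S v, p c ≤ ∑ c ∈ S v, ((n c : ℝ) + 1) * η :=
      Finset.sum_le_sum (fun c _ => hn2 c)
    rw [← Finset.sum_mul, Finset.sum_add_distrib] at h1
    simp only [Finset.sum_const, nsmul_eq_mul, mul_one] at h1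
    have h2 : ((S v).card : ℝ) ≤ Fintype.card T := by exact_mod_cast Finset.card_le_univ _
    have h3 : 2 * s * η ≤ (∑ c ∈ S v, (n c : ℝ) + (S v).card) * η := by
      rw [← hbη]; exact (hw1 v hv).trans h1
    have h4 := le_of_mul_le_mul_right h3 hη0
    have h5 : (s : ℝ) = Fintype.card T + 1 := by rw [hs]; push_cast; ring
    have h6 : (s : ℝ) ≤ ∑ c ∈ S v, (n c : ℝ) := by linarith
    exact_mod_cast h6
  have cR : ∀ v ∈ X, ((R v).sigma (fun c => (univ : Finset (Fin (n c))))).card ≤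
      ⌊4 * τ * s⌋₊ := by
    intro v hv
    rw [Finset.card_sigma]
    simp only [Finset.card_univ, Fintype.card_fin]
    apply Nat.le_floor
    push_cast
    have h1 : (∑ c ∈ R v, (n c : ℝ)) * η ≤ ∑ c ∈ R v, p c := by
      rw [Finset.sum_mul]
      exact Finset.sum_le_sum (fun c _ => hn1 c)
    have h2 : ∑ c ∈ R v, p c ≤ τ * (2 * b) :=
      (hR v hv).trans (mul_le_mul_of_nonneg_left (hw2 v hv) (by linarith))
    have h3 : (∑ c ∈ R v, (n c : ℝ)) * η ≤ (4 * τ * s) * η := by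
      calc (∑ c ∈ R v, (n c : ℝ)) * η ≤ τ * (2 * b) := h1.trans h2
        _ = (4 * τ * s) * η := by rw [hbη]; ring
    exact le_of_mul_le_mul_right h3 hη0
  have hex : ∀ v, ∃ S2 : Finset ((c : T) × Fin (n c)), v ∈ X →
      S2 ⊆ (S v).sigma (fun c => (univ : Finset (Fin (n c)))) ∧ S2.card = s := by
    intro v
    by_cases hv : v ∈ X
    · obtain ⟨S2, h1, h2⟩ := Finset.exists_subset_card_eq (cS v hv)
      exact ⟨S2, fun _ => ⟨h1, h2⟩⟩
    · exact ⟨∅, fun h => absurd h hv⟩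
  choose S2 hS2 using hex
  have hm1 : 1 ≤ m := by
    have : (1 : ℝ) ≤ m := by linarith
    exact_mod_cast this
  have h8 : 8 * ⌊4 * τ * s⌋₊ ≤ m * s := by
    have h1 : (⌊4 * τ * s⌋₊ : ℝ) ≤ 4 * τ * s := Nat.floor_le (by positivity)
    have h2 : (32 * τ) * s ≤ m * s := mul_le_mul_of_nonneg_right hm hs0.le
    have h3 : ((8 * ⌊4 * τ * s⌋₊ : ℕ) : ℝ) ≤ ((m * s : ℕ) : ℝ) := by
      push_cast
      linarith
    exact_mod_cast h3
  obtain ⟨f, hf⟩ := hC V ((c : T) × Fin (n c)) K m s ⌊4 * τ * s⌋₊ d hm1 hs1 h8 X S2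
    (fun v => (R v).sigma (fun c => (univ : Finset (Fin (n c)))))
    (fun v hv => (hS2 v hv).2) cR
    (by
      intro v hv
      rw [Finset.disjoint_left]
      intro x hx hx'
      have h1 := (hS2 v hv).1 hx
      rw [Finset.mem_sigma] at h1 hx'
      exact Finset.disjoint_left.1 (hd v hv) h1.1 hx'.1)
    hd1
    (by
      intro v hv
      obtain ⟨U, hU1, hU2⟩ := hU v hv
      refine ⟨U, hU1, ?_⟩
      intro u hu c hc hc'
      refine hU2 u hu c.1 ?_ ?_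
      · rcases hc with h | h
        · exact Or.inl (Finset.mem_sigma.1 ((hS2 v hv).1 h)).1
        · exact Or.inr (Finset.mem_sigma.1 h).1
      · rcases hc' with h | h
        · exact Or.inl (Finset.mem_sigma.1 ((hS2 u hu).1 h)).1
        · exact Or.inr (Finset.mem_sigma.1 h).1)
    hK
  refine ⟨f, fun v hv => ?_⟩
  obtain ⟨h1, c, hc, h2⟩ := hf v hv
  refine ⟨h1, c.1, (Finset.mem_sigma.1 ((hS2 v hv).1 hc)).1, ?_⟩
  intro u hu hfu hcR
  exact h2 u hu hfu (Finset.mem_sigma.2 ⟨hcR, Finset.mem_univ _⟩)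

theorem t_LOC : S_CELLS → S_LOC := by
  intro hC V T _ _ A X S R p τ Γ d K Λ m hp hτ hne hdis hR hA hΓ hΛ hd hU hK hm
  obtain ⟨w, hw⟩ : ∃ w : V → ℝ, w = fun v => ∑ c ∈ S v, p c := ⟨_, rfl⟩
  have hw0 : ∀ v ∈ X, 0 < w v := by
    intro v hv
    rw [hw]
    exact Finset.sum_pos (fun c _ => hp c) (hne v hv)
  obtain ⟨z, hz⟩ : ∃ z : V → ℤ, z = fun v => ⌊Real.logb 2 (w v)⌋ := ⟨_, rfl⟩
  have hz1 : ∀ v ∈ X, (2 : ℝ) ^ (z v) ≤ w v := by
    intro v hv
    have h1 : (z v : ℝ) ≤ Real.logb 2 (w v) := by rw [hz]; exact Int.floor_le _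
    have h2 := (Real.le_logb_iff_rpow_le (by norm_num : (1 : ℝ) < 2) (hw0 v hv)).1 h1
    rwa [Real.rpow_intCast] at h2
  have hz2 : ∀ v ∈ X, w v ≤ 2 * (2 : ℝ) ^ (z v) := by
    intro v hv
    have h1 : Real.logb 2 (w v) < ((z v + 1 : ℤ) : ℝ) := by
      rw [hz]; push_cast; exact Int.lt_floor_add_one _
    have h2 := (Real.logb_lt_iff_lt_rpow (by norm_num : (1 : ℝ) < 2) (hw0 v hv)).1 h1
    rw [Real.rpow_intCast, zpow_add₀ (by norm_num), zpow_one] at h2
    linarith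
  have hstep : ∀ v ∈ X, ∀ u ∈ X, A v u → z v ≤ z u + Λ := by
    intro v hv u hu hvu
    have h1 : w v ≤ 2 ^ Λ * w u := by
      have h := hΓ v hv u hu hvu
      have h' : Γ * w u ≤ 2 ^ Λ * w u := mul_le_mul_of_nonneg_right hΛ (hw0 u hu).le
      rw [hw] at *
      exact h.trans h'
    have h2 : Real.logb 2 (w v) ≤ Real.logb 2 (w u) + Λ := by
      have h3 := Real.logb_le_logb_of_le (by norm_num : (1 : ℝ) < 2) (hw0 v hv) h1
      rw [Real.logb_mul (by positivity) (hw0 u hu).ne', Real.logb_pow] at h3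
      rw [Real.logb_self_eq_one (by norm_num)] at h3
      linarith
    rw [hz]
    have h4 : ⌊Real.logb 2 (w v)⌋ ≤ ⌊Real.logb 2 (w u) + Λ⌋ := Int.floor_le_floor h2
    rwa [Int.floor_add_natCast] at h4
  have hsc : ∀ k : ℤ, ∃ f : V → ℕ, ∀ v ∈ X.filter (fun v => z v = k), f v < K * m ∧
      ∃ c ∈ S v, ∀ u ∈ X.filter (fun v => z v = k), f v = f u → c ∉ R u := by
    intro k
    have hsub : ∀ v ∈ X.filter (fun v => z v = k), v ∈ X ∧ z v = k := by
      intro v hv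
      exact Finset.mem_filter.1 hv
    refine scale hC V T (X.filter (fun v => z v = k)) S R p τ ((2 : ℝ) ^ k) d K m hp hτ
      (fun v hv => hdis v (hsub v hv).1) (fun v hv => hR v (hsub v hv).1) hd ?_ hK hm
      (by positivity) ?_ ?_
    · intro v hv
      obtain ⟨U, hU1, hU2⟩ := hU v (hsub v hv).1
      exact ⟨U, hU1, fun u hu => hU2 u (hsub u hu).1⟩
    · intro v hv
      have h := hz1 v (hsub v hv).1
      rw [(hsub v hv).2, hw] at h
      exact h
    · intro v hv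
      have h := hz2 v (hsub v hv).1
      rw [(hsub v hv).2, hw] at h
      exact h
  choose F hF using hsc
  have hF1 : ∀ v ∈ X, F (z v) v < K * m := by
    intro v hv
    exact (hF (z v) v (Finset.mem_filter.2 ⟨hv, rfl⟩)).1
  have hmod0 : ∀ v, 0 ≤ z v % ((Λ : ℤ) + 1) := fun v => Int.emod_nonneg _ (by positivity)
  have hmod1 : ∀ v, z v % ((Λ : ℤ) + 1) < (Λ : ℤ) + 1 :=
    fun v => Int.emod_lt_of_pos _ (by positivity)
  refine ⟨fun v => (z v % ((Λ : ℤ) + 1)).toNat * (K * m) + F (z v) v, ?_⟩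
  intro v hv
  obtain ⟨hlt, c, hc, hcu⟩ := hF (z v) v (Finset.mem_filter.2 ⟨hv, rfl⟩)
  refine ⟨?_, c, hc, ?_⟩
  · have h1 : (z v % ((Λ : ℤ) + 1)).toNat + 1 ≤ Λ + 1 := by
      have := hmod0 v
      have := hmod1 v
      omega
    calc (z v % ((Λ : ℤ) + 1)).toNat * (K * m) + F (z v) v
        < (z v % ((Λ : ℤ) + 1)).toNat * (K * m) + K * m := by omega
      _ = ((z v % ((Λ : ℤ) + 1)).toNat + 1) * (K * m) := by ring
      _ ≤ (Λ + 1) * (K * m) := Nat.mul_le_mul_right _ h1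
  · intro u hu hvu hfe
    have hFv := hF1 v hv
    have hFu := hF1 u hu
    simp only at hfe
    have hpos : 0 < K * m := by omega
    have hq : (z v % ((Λ : ℤ) + 1)).toNat = (z u % ((Λ : ℤ) + 1)).toNat := by
      have h1 : ((z v % ((Λ : ℤ) + 1)).toNat * (K * m) + F (z v) v) / (K * m) =
          (z v % ((Λ : ℤ) + 1)).toNat := by
        rw [mul_comm, Nat.mul_add_div hpos, Nat.div_eq_of_lt hFv, add_zero]
      have h2 : ((z u % ((Λ : ℤ) + 1)).toNat * (K * m) + F (z u) u) / (K * m) =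
          (z u % ((Λ : ℤ) + 1)).toNat := by
        rw [mul_comm, Nat.mul_add_div hpos, Nat.div_eq_of_lt hFu, add_zero]
      rw [← h1, ← h2, hfe]
    have hFe : F (z v) v = F (z u) u := by
      rw [hq] at hfe
      omega
    have hzz : z v = z u := by
      have h1 := hstep v hv u hu hvu
      have h2 := hstep u hu v hv (hA v u hvu)
      have h3 : z v % ((Λ : ℤ) + 1) = z u % ((Λ : ℤ) + 1) := by
        have := hmod0 v
        have := hmod0 u
        omega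
      have h4 : ((Λ : ℤ) + 1) ∣ z u - z v := Int.ModEq.dvd h3
      have h5 : |z u - z v| < (Λ : ℤ) + 1 := by
        rw [abs_lt]
        constructor <;> linarith
      have h6 := Int.eq_zero_of_abs_lt_dvd h4 h5
      linarith
    rw [← hzz] at hFe
    exact hcu u (Finset.mem_filter.2 ⟨hu, hzz.symm⟩) hFe

end Pool.Agent.U978.NL
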